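import Pool.Agent.helper1.SF.SpecA

set_option autoImplicit false

namespace SF

open Pool.Agent.helper72.Sq MeasureTheory Set
open scoped ContDiff Topology

theorem KFA_cont {g : ℝ → ℝ} (hg : Prof g) : Continuous (deriv g) :=
  hg.smooth.continuous_deriv (by simp)

theorem KFA_sup {g : ℝ → ℝ} (hg : Prof g) {a : ℝ} (ha : 3 < a) : deriv g a = 0 := by
  have h : g =ᶠ[𝓝 a] fun _ => 0 := by
    filter_upwards [Ioi_mem_nhds ha] with x hx
    exact hg.hi x (le_of_lt hx)
  rw [h.deriv_eq]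
  simp

theorem KFA_bd {g : ℝ → ℝ} (hg : Prof g) : ∃ B : ℝ, 0 ≤ B ∧ ∀ a, |deriv g a| ≤ B := by
  have hc : HasCompactSupport g := by
    refine HasCompactSupport.intro (isCompact_Icc : IsCompact (Icc (1 : ℝ) 3)) ?_
    intro x hx
    rw [mem_Icc, not_and_or, not_le, not_le] at hx
    rcases hx with h | h
    · exact hg.lo x h.le
    · exact hg.hi x h.le
  obtain ⟨C, hC⟩ := (KFA_cont hg).bounded_above_of_compact_support hc.deriv
  refine ⟨C, (norm_nonneg _).trans (hC 0), fun a => ?_⟩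
  simpa [Real.norm_eq_abs] using hC a

/-- the support in `t` -/
theorem KFA_t {g : ℝ → ℝ} (hg : Prof g) {A c p t : ℝ} (hA : 0 < A)
    (ht : 3 / A + c ^ 2 + 1 < |t|) : deriv g (A * (p ^ 2 + t ^ 2 + 1 - c ^ 2)) = 0 := by
  apply KFA_sup hg
  have h3 : 0 < 3 / A := by positivity
  have h1 : (1 : ℝ) < |t| := by nlinarith [sq_nonneg c]
  have h2 : |t| < t ^ 2 := by
    rw [← sq_abs]
    nlinarith
  have h4 : 3 / A < p ^ 2 + t ^ 2 + 1 - c ^ 2 := by nlinarith [sq_nonneg p]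
  have h5 : 3 = A * (3 / A) := by field_simp
  calc (3 : ℝ) = A * (3 / A) := h5
    _ < _ := by exact mul_lt_mul_of_pos_left h4 hA

/-- the bound of the absolute integral in `t` -/
theorem KFA_abs {g : ℝ → ℝ} (hg : Prof g) {A c B : ℝ} (hA : 0 < A) (hB : ∀ a, |deriv g a| ≤ B)
    (p : ℝ) : ∫ t : ℝ, |deriv g (A * (p ^ 2 + t ^ 2 + 1 - c ^ 2))| ≤
      2 * (3 / A + c ^ 2 + 1) * B := by
  set T := 3 / A + c ^ 2 + 1 with hT
  have hTp : 0 < T := by positivity
  have h1 : ∫ t : ℝ, |deriv g (A * (p ^ 2 + t ^ 2 + 1 - c ^ 2))| =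
      ∫ t in Icc (-T) T, |deriv g (A * (p ^ 2 + t ^ 2 + 1 - c ^ 2))| := by
    symm
    apply setIntegral_eq_integral_of_forall_compl_eq_zero
    intro t ht
    rw [mem_Icc, ← abs_le, not_le] at ht
    rw [KFA_t hg hA ht, abs_zero]
  rw [h1]
  calc ∫ t in Icc (-T) T, |deriv g (A * (p ^ 2 + t ^ 2 + 1 - c ^ 2))|
      ≤ ∫ _ in Icc (-T) T, B := by
        apply setIntegral_mono_on
        · apply Continuous.integrableOn_Icc
          have := KFA_cont hg
          fun_prop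
        · exact continuous_const.integrableOn_Icc
        · exact measurableSet_Icc
        · intro t _
          exact hB _
    _ = 2 * T * B := by
        rw [setIntegral_const, smul_eq_mul, Measure.real, Real.volume_Icc,
          ENNReal.toReal_ofReal (by linarith)]
        ring

theorem KFA_comp {h : ℝ → ℝ} {p : ℝ} (hp : 0 < p) :
    ∫ u : ℝ, p * h (p * u) = ∫ t, h t := by
  rw [integral_const_mul, Measure.integral_comp_mul_left h p, abs_of_pos (inv_pos.2 hp), smul_eq_mul,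
    ← mul_assoc, mul_inv_cancel₀ hp.ne', one_mul]

/-- integrability on the strip -/
theorem KFA_int {g : ℝ → ℝ} (hg : Prof g) {A c : ℝ} (hA : 0 < A) :
    Integrable (Function.uncurry fun p u : ℝ =>
      p * deriv g (A * (p ^ 2 + (p * u) ^ 2 + 1 - c ^ 2)))
      ((volume.restrict (Ioc 0 c)).prod volume) := by
  have hc := KFA_cont hg
  obtain ⟨B, hB0, hB⟩ := KFA_bd hg
  have hcont : Continuous (Function.uncurry fun p u : ℝ =>
      p * deriv g (A * (p ^ 2 + (p * u) ^ 2 + 1 - c ^ 2))) := by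
    unfold Function.uncurry
    fun_prop
  rw [integrable_prod_iff hcont.aestronglyMeasurable]
  constructor
  · filter_upwards [self_mem_ae_restrict measurableSet_Ioc] with p hp
    have hp0 : 0 < p := hp.1
    simp only [Function.uncurry]
    apply Continuous.integrable_of_hasCompactSupport
    · fun_prop
    · refine HasCompactSupport.intro (isCompact_Icc :
        IsCompact (Icc (-((3 / A + c ^ 2 + 1) / p)) ((3 / A + c ^ 2 + 1) / p))) ?_
      intro u hu
      rw [mem_Icc, ← abs_le, not_le, div_lt_iff₀ hp0] at hu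
      rw [KFA_t hg hA, mul_zero]
      rw [abs_mul, abs_of_pos hp0, mul_comm]
      exact hu
  · have hm : AEStronglyMeasurable (fun x : ℝ => ∫ y : ℝ, ‖Function.uncurry (fun p u : ℝ =>
        p * deriv g (A * (p ^ 2 + (p * u) ^ 2 + 1 - c ^ 2))) (x, y)‖) (volume.restrict (Ioc 0 c)) :=
      (hcont.norm.aestronglyMeasurable (μ := (volume.restrict (Ioc 0 c)).prod
        (volume : Measure ℝ))).integral_prod_right'
    refine Integrable.of_bound hm (2 * (3 / A + c ^ 2 + 1) * B) ?_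
    · filter_upwards [self_mem_ae_restrict measurableSet_Ioc] with p hp
      have hp0 : 0 < p := hp.1
      simp only [Function.uncurry]
      have e : ∫ u : ℝ, ‖p * deriv g (A * (p ^ 2 + (p * u) ^ 2 + 1 - c ^ 2))‖ =
          ∫ t : ℝ, |deriv g (A * (p ^ 2 + t ^ 2 + 1 - c ^ 2))| := by
        rw [← KFA_comp (h := fun t => |deriv g (A * (p ^ 2 + t ^ 2 + 1 - c ^ 2))|) hp0]
        apply integral_congr_ae
        filter_upwards with u
        rw [norm_mul, Real.norm_eq_abs, Real.norm_eq_abs, abs_of_pos hp0]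
      rw [e, Real.norm_eq_abs, abs_of_nonneg (integral_nonneg fun t => abs_nonneg _)]
      exact KFA_abs hg hA hB p

/-- the inner integral -/
theorem KFA_in {g : ℝ → ℝ} (hg : Prof g) {A c : ℝ} (hA : 0 < A) (u : ℝ) :
    ∫ p in (0 : ℝ)..c, p * deriv g (A * (p ^ 2 + (p * u) ^ 2 + 1 - c ^ 2)) =
      (g (A * (1 + c ^ 2 * u ^ 2)) - g (A * (1 - c ^ 2))) * (1 / (2 * A) * (1 + u ^ 2)⁻¹) := by
  have hu : 0 < 1 + u ^ 2 := by positivity
  have hc := KFA_cont hg
  have hd : Differentiable ℝ g := hg.smooth.differentiable (by simp)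
  have h1 : ∀ p ∈ uIcc 0 c, HasDerivAt
      (fun p : ℝ => g (A * (p ^ 2 + (p * u) ^ 2 + 1 - c ^ 2)) * (1 / (2 * A) * (1 + u ^ 2)⁻¹))
      (p * deriv g (A * (p ^ 2 + (p * u) ^ 2 + 1 - c ^ 2))) p := by
    intro p _
    have h2 : HasDerivAt (fun p : ℝ => A * (p ^ 2 + (p * u) ^ 2 + 1 - c ^ 2))
        (A * (2 * p * (1 + u ^ 2))) p := by
      have h3 : HasDerivAt (fun p : ℝ => A * (p ^ 2 + (p * u) ^ 2 + 1 - c ^ 2))
          (A * (2 * p ^ 1 * 1 + 2 * (p * u) ^ 1 * (1 * u))) p := by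
        refine HasDerivAt.const_mul A ?_
        refine HasDerivAt.sub_const _ ?_
        refine HasDerivAt.add_const _ ?_
        refine HasDerivAt.add ?_ ?_
        · exact (hasDerivAt_id p).pow 2
        · exact ((hasDerivAt_id p).mul_const u).pow 2
      have e : A * (2 * p * (1 + u ^ 2)) = A * (2 * p ^ 1 * 1 + 2 * (p * u) ^ 1 * (1 * u)) := by ring
      rw [e]
      exact h3
    have h4 := ((hd _).hasDerivAt.comp p h2).mul_const (1 / (2 * A) * (1 + u ^ 2)⁻¹)
    have e : p * deriv g (A * (p ^ 2 + (p * u) ^ 2 + 1 - c ^ 2)) =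
        deriv g (A * (p ^ 2 + (p * u) ^ 2 + 1 - c ^ 2)) * (A * (2 * p * (1 + u ^ 2))) *
          (1 / (2 * A) * (1 + u ^ 2)⁻¹) := by
      field_simp
    rw [e]
    exact h4
  rw [intervalIntegral.integral_eq_sub_of_hasDerivAt h1]
  · have e1 : c ^ 2 + (c * u) ^ 2 + 1 - c ^ 2 = 1 + c ^ 2 * u ^ 2 := by ring
    have e2 : (0 : ℝ) ^ 2 + (0 * u) ^ 2 + 1 - c ^ 2 = 1 - c ^ 2 := by ring
    rw [e1, e2]
    ring
  · apply Continuous.intervalIntegrable
    fun_prop

theorem KFA : KFA_stmt := by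
  intro g hg A c hA hc
  have hgc : Continuous g := hg.smooth.continuous
  -- step 1
  have h1 : NN g A c = A * ∫ p in Ioc 0 c, ∫ u : ℝ,
      p * deriv g (A * (p ^ 2 + (p * u) ^ 2 + 1 - c ^ 2)) := by
    unfold NN
    rw [intervalIntegral.integral_of_le hc.le]
    congr 1
    apply setIntegral_congr_fun measurableSet_Ioc
    intro p hp
    exact (KFA_comp (h := fun t => deriv g (A * (p ^ 2 + t ^ 2 + 1 - c ^ 2))) hp.1).symm
  -- step 2
  have h2 : ∫ p in Ioc 0 c, ∫ u : ℝ, p * deriv g (A * (p ^ 2 + (p * u) ^ 2 + 1 - c ^ 2)) =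
      ∫ u : ℝ, (g (A * (1 + c ^ 2 * u ^ 2)) - g (A * (1 - c ^ 2))) *
        (1 / (2 * A) * (1 + u ^ 2)⁻¹) := by
    rw [integral_integral_swap (KFA_int hg hA)]
    apply integral_congr_ae
    filter_upwards with u
    rw [← intervalIntegral.integral_of_le hc.le]
    exact KFA_in hg hA u
  -- step 3
  have hcomp : HasCompactSupport g := by
    refine HasCompactSupport.intro (isCompact_Icc : IsCompact (Icc (1 : ℝ) 3)) ?_
    intro x hx
    rw [mem_Icc, not_and_or, not_le, not_le] at hx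
    rcases hx with h | h
    · exact hg.lo x h.le
    · exact hg.hi x h.le
  obtain ⟨M, hM⟩ := hgc.bounded_above_of_compact_support hcomp
  have i0 : Integrable (fun u : ℝ => (1 + u ^ 2)⁻¹) := integrable_inv_one_add_sq
  have i1 : Integrable (fun u : ℝ => g (A * (1 + c ^ 2 * u ^ 2)) * (1 + u ^ 2)⁻¹) := by
    refine Integrable.bdd_mul (c := M) i0 ?_ ?_
    · exact (by fun_prop : Continuous fun u : ℝ => g (A * (1 + c ^ 2 * u ^ 2))).aestronglyMeasurable
    · filter_upwards with u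
      exact hM _
  have h3 : ∫ u : ℝ, (g (A * (1 + c ^ 2 * u ^ 2)) - g (A * (1 - c ^ 2))) *
        (1 / (2 * A) * (1 + u ^ 2)⁻¹) =
      1 / (2 * A) * ((∫ u : ℝ, g (A * (1 + c ^ 2 * u ^ 2)) * (1 + u ^ 2)⁻¹) -
        g (A * (1 - c ^ 2)) * Real.pi) := by
    rw [← integral_univ_inv_one_add_sq, ← integral_const_mul, ← integral_sub i1 (i0.const_mul _),
      ← integral_const_mul]
    apply integral_congr_ae
    filter_upwards with u
    ring
  have h4 : ∫ u : ℝ, g (A * (1 + c ^ 2 * u ^ 2)) * (1 + u ^ 2)⁻¹ =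
      2 * ∫ τ in Ioi (0 : ℝ), c / (τ ^ 2 + c ^ 2) * g (A * (1 + τ ^ 2)) := by
    have e1 : ∫ u : ℝ, g (A * (1 + c ^ 2 * u ^ 2)) * (1 + u ^ 2)⁻¹ =
        ∫ u : ℝ, (fun v : ℝ => g (A * (1 + c ^ 2 * v ^ 2)) * (1 + v ^ 2)⁻¹) |u| := by
      apply integral_congr_ae
      filter_upwards with u
      simp only [sq_abs]
    rw [e1, integral_comp_abs (f := fun v : ℝ => g (A * (1 + c ^ 2 * v ^ 2)) * (1 + v ^ 2)⁻¹)]
    congr 1
    have e2 := integral_comp_mul_left_Ioi
      (fun τ : ℝ => c / (τ ^ 2 + c ^ 2) * g (A * (1 + τ ^ 2))) 0 hc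
    rw [mul_zero, smul_eq_mul] at e2
    have e3 : ∫ τ in Ioi (0 : ℝ), c / (τ ^ 2 + c ^ 2) * g (A * (1 + τ ^ 2)) =
        c * ∫ x in Ioi (0 : ℝ), c / ((c * x) ^ 2 + c ^ 2) * g (A * (1 + (c * x) ^ 2)) := by
      rw [e2, ← mul_assoc, mul_inv_cancel₀ hc.ne', one_mul]
    rw [e3, ← integral_const_mul]
    apply setIntegral_congr_fun measurableSet_Ioi
    intro x _
    have hx : 0 < 1 + x ^ 2 := by positivity
    have hcx : (c * x) ^ 2 + c ^ 2 = c ^ 2 * (1 + x ^ 2) := by ring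
    simp only
    rw [hcx, mul_pow]
    field_simp
  rw [h1, h2, h3, h4]
  field_simp

end SF
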