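import Mathlib
import Pool.Agent.helper68.SF.SpecE

/-!
Project SF (MP_d52931_gt), module se:LR: local regularity.
-/

set_option autoImplicit false

namespace SF

open MeasureTheory Filter
open scoped ContDiff Topology

/-! ## Calculus -/

theorem LR_sm {f : ℝ × ℝ → ℝ} (hf : ContDiff ℝ ∞ f) (e : ℝ × ℝ) :
    ContDiff ℝ ∞ (fun p => fderiv ℝ f p e) :=
  (hf.fderiv_right (m := ∞) (by simp)).clm_apply contDiff_const

theorem LR_px {f : ℝ × ℝ → ℝ} (hf : ContDiff ℝ ∞ f) : ContDiff ℝ ∞ (px f) := LR_sm hf _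
theorem LR_py {f : ℝ × ℝ → ℝ} (hf : ContDiff ℝ ∞ f) : ContDiff ℝ ∞ (py f) := LR_sm hf _
theorem LR_lap {f : ℝ × ℝ → ℝ} (hf : ContDiff ℝ ∞ f) : ContDiff ℝ ∞ (lap f) :=
  (LR_px (LR_px hf)).add (LR_py (LR_py hf))

theorem LR_df {f : ℝ × ℝ → ℝ} (hf : ContDiff ℝ ∞ f) (p : ℝ × ℝ) : DifferentiableAt ℝ f p :=
  (hf.differentiable (by simp)) p

theorem LR_mul {f g : ℝ × ℝ → ℝ} (hf : ContDiff ℝ ∞ f) (hg : ContDiff ℝ ∞ g) (e p : ℝ × ℝ) :
    fderiv ℝ (fun q => f q * g q) p e = fderiv ℝ f p e * g p + f p * fderiv ℝ g p e := by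
  have h := ((LR_df hf p).hasFDerivAt.mul (LR_df hg p).hasFDerivAt).fderiv
  have h2 : fderiv ℝ (fun q => f q * g q) p = f p • fderiv ℝ g p + g p • fderiv ℝ f p := h
  rw [h2]
  simp only [_root_.add_apply, _root_.smul_apply, smul_eq_mul]
  ring

theorem LR_add {f g : ℝ × ℝ → ℝ} (hf : ContDiff ℝ ∞ f) (hg : ContDiff ℝ ∞ g) (e p : ℝ × ℝ) :
    fderiv ℝ (fun q => f q + g q) p e = fderiv ℝ f p e + fderiv ℝ g p e := by
  have h := ((LR_df hf p).hasFDerivAt.add (LR_df hg p).hasFDerivAt).fderiv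
  have h2 : fderiv ℝ (fun q => f q + g q) p = fderiv ℝ f p + fderiv ℝ g p := h
  rw [h2]
  rfl

theorem LR_px_mul {f g : ℝ × ℝ → ℝ} (hf : ContDiff ℝ ∞ f) (hg : ContDiff ℝ ∞ g) :
    px (fun q => f q * g q) = fun p => px f p * g p + f p * px g p := funext fun p => LR_mul hf hg _ p
theorem LR_py_mul {f g : ℝ × ℝ → ℝ} (hf : ContDiff ℝ ∞ f) (hg : ContDiff ℝ ∞ g) :
    py (fun q => f q * g q) = fun p => py f p * g p + f p * py g p := funext fun p => LR_mul hf hg _ p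
theorem LR_px_add {f g : ℝ × ℝ → ℝ} (hf : ContDiff ℝ ∞ f) (hg : ContDiff ℝ ∞ g) :
    px (fun q => f q + g q) = fun p => px f p + px g p := funext fun p => LR_add hf hg _ p
theorem LR_py_add {f g : ℝ × ℝ → ℝ} (hf : ContDiff ℝ ∞ f) (hg : ContDiff ℝ ∞ g) :
    py (fun q => f q + g q) = fun p => py f p + py g p := funext fun p => LR_add hf hg _ p

theorem LR_comm {f : ℝ × ℝ → ℝ} (hf : ContDiff ℝ ∞ f) (p : ℝ × ℝ) : px (py f) p = py (px f) p := by
  have h1 : DifferentiableAt ℝ (fderiv ℝ f) p :=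
    ((hf.fderiv_right (m := ∞) (by simp)).differentiable (by simp)) p
  have h2 : ∀ e e' : ℝ × ℝ, fderiv ℝ (fun q => fderiv ℝ f q e) p e' =
      fderiv ℝ (fderiv ℝ f) p e' e := by
    intro e e'
    have h3 := (h1.hasFDerivAt.clm_apply (hasFDerivAt_const e p)).fderiv
    rw [h3]
    simp
  have h4 : IsSymmSndFDerivAt ℝ f p := by
    refine ContDiffAt.isSymmSndFDerivAt (n := ((2 : ℕ) : ℕ∞ω)) (contDiff_infty.1 hf 2).contDiffAt ?_
    rw [minSmoothness_of_isRCLikeNormedField]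
    exact le_rfl
  show fderiv ℝ (fun q => fderiv ℝ f q (0, 1)) p (1, 0) = fderiv ℝ (fun q => fderiv ℝ f q (1, 0)) p (0, 1)
  rw [h2, h2]
  exact h4 _ _

theorem LR_pxx_mul {f g : ℝ × ℝ → ℝ} (hf : ContDiff ℝ ∞ f) (hg : ContDiff ℝ ∞ g) :
    px (px (fun q => f q * g q)) =
      fun p => px (px f) p * g p + 2 * (px f p * px g p) + f p * px (px g) p := by
  rw [LR_px_mul hf hg, LR_px_add ((LR_px hf).mul hg) (hf.mul (LR_px hg)), LR_px_mul (LR_px hf) hg,
    LR_px_mul hf (LR_px hg)]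
  funext p
  ring

theorem LR_pyy_mul {f g : ℝ × ℝ → ℝ} (hf : ContDiff ℝ ∞ f) (hg : ContDiff ℝ ∞ g) :
    py (py (fun q => f q * g q)) =
      fun p => py (py f) p * g p + 2 * (py f p * py g p) + f p * py (py g) p := by
  rw [LR_py_mul hf hg, LR_py_add ((LR_py hf).mul hg) (hf.mul (LR_py hg)), LR_py_mul (LR_py hf) hg,
    LR_py_mul hf (LR_py hg)]
  funext p
  ring

theorem LR_lap_mul {f g : ℝ × ℝ → ℝ} (hf : ContDiff ℝ ∞ f) (hg : ContDiff ℝ ∞ g) :
    lap (fun q => f q * g q) =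
      fun p => lap f p * g p + 2 * px f p * px g p + 2 * py f p * py g p + f p * lap g p := by
  funext p
  show px (px (fun q => f q * g q)) p + py (py (fun q => f q * g q)) p = _
  rw [LR_pxx_mul hf hg, LR_pyy_mul hf hg]
  show _ = (px (px f) p + py (py f) p) * g p + 2 * px f p * px g p + 2 * py f p * py g p +
    f p * (px (px g) p + py (py g) p)
  ring

theorem LR_pylap_mul {f g : ℝ × ℝ → ℝ} (hf : ContDiff ℝ ∞ f) (hg : ContDiff ℝ ∞ g) :
    py (lap (fun q => f q * g q)) =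
      fun p => py (lap f) p * g p + 2 * py (px f) p * px g p + (lap f p + 2 * py (py f) p) * py g p +
        2 * px f p * py (px g) p + 2 * py f p * py (py g) p + py f p * lap g p + f p * py (lap g) p := by
  have e1 : lap (fun q => f q * g q) = fun p => (lap f p * g p + (px f p * px g p + px f p * px g p)) +
      ((py f p * py g p + py f p * py g p) + f p * lap g p) := by
    rw [LR_lap_mul hf hg]
    funext p
    ring
  have s1 := (LR_lap hf).mul hg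
  have s2 := (LR_px hf).mul (LR_px hg)
  have s3 := (LR_py hf).mul (LR_py hg)
  have s4 := hf.mul (LR_lap hg)
  rw [e1, LR_py_add (s1.add (s2.add s2)) ((s3.add s3).add s4), LR_py_add s1 (s2.add s2), LR_py_add s2 s2,
    LR_py_add (s3.add s3) s4, LR_py_add s3 s3, LR_py_mul (LR_lap hf) hg, LR_py_mul (LR_px hf) (LR_px hg),
    LR_py_mul (LR_py hf) (LR_py hg), LR_py_mul hf (LR_lap hg)]
  funext p
  ring

/-! ## Supports -/

theorem LR_van {f : ℝ × ℝ → ℝ} {K : Set (ℝ × ℝ)} (hK : IsClosed K) (hf : ∀ p ∉ K, f p = 0) (e : ℝ × ℝ) :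
    ∀ p ∉ K, fderiv ℝ f p e = 0 := by
  intro p hp
  have h1 : f =ᶠ[𝓝 p] fun _ => 0 := by
    filter_upwards [hK.isOpen_compl.mem_nhds hp] with q hq
    exact hf q hq
  rw [h1.fderiv_eq]
  simp

theorem LR_van_lap {f : ℝ × ℝ → ℝ} {K : Set (ℝ × ℝ)} (hK : IsClosed K) (hf : ∀ p ∉ K, f p = 0) :
    ∀ p ∉ K, lap f p = 0 := by
  intro p hp
  have h1 : px (px f) p = 0 := LR_van hK (LR_van hK hf _) _ p hp
  have h2 : py (py f) p = 0 := LR_van hK (LR_van hK hf _) _ p hp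
  show px (px f) p + py (py f) p = 0
  rw [h1, h2, add_zero]

theorem LR_bound {f : ℝ × ℝ → ℝ} {K : Set (ℝ × ℝ)} (hK : IsCompact K) (hf : ∀ p ∉ K, f p = 0)
    (hc : ContDiff ℝ ∞ f) : ∃ C, 0 ≤ C ∧ ∀ p, |f p| ≤ C := by
  obtain ⟨C, hC⟩ := hc.continuous.bounded_above_of_compact_support (HasCompactSupport.intro hK hf)
  exact ⟨C, (norm_nonneg _).trans (hC 0), hC⟩

theorem LR_cs4 (M : ℝ) (c0 c1 c2 c3 b0 b1 b2 b3 : ℝ) (h0 : |c0| ≤ M) (h1 : |c1| ≤ M) (h2 : |c2| ≤ M)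
    (h3 : |c3| ≤ M) : (c0 * b0 + c1 * b1 + c2 * b2 + c3 * b3) ^ 2 ≤
      4 * M ^ 2 * (b0 ^ 2 + b1 ^ 2 + b2 ^ 2 + b3 ^ 2) := by
  have hsq : ∀ c : ℝ, |c| ≤ M → c ^ 2 ≤ M ^ 2 := fun c hc => sq_le_sq' (by linarith [abs_le.1 hc]) (abs_le.1 hc).2
  have h := Finset.sum_mul_sq_le_sq_mul_sq Finset.univ ![c0, c1, c2, c3] ![b0, b1, b2, b3]
  simp only [Fin.sum_univ_four, Matrix.cons_val_zero, Matrix.cons_val_one, Matrix.cons_val] at h
  refine h.trans ?_
  refine mul_le_mul_of_nonneg_right ?_ (by positivity)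
  linarith [hsq _ h0, hsq _ h1, hsq _ h2, hsq _ h3]

theorem LR_cs7 (M : ℝ) (c0 c1 c2 c3 c4 c5 c6 b0 b1 b2 b3 b4 b5 b6 : ℝ) (h0 : |c0| ≤ M) (h1 : |c1| ≤ M)
    (h2 : |c2| ≤ M) (h3 : |c3| ≤ M) (h4 : |c4| ≤ M) (h5 : |c5| ≤ M) (h6 : |c6| ≤ M) :
    (c0 * b0 + c1 * b1 + c2 * b2 + c3 * b3 + c4 * b4 + c5 * b5 + c6 * b6) ^ 2 ≤
      7 * M ^ 2 * (b0 ^ 2 + b1 ^ 2 + b2 ^ 2 + b3 ^ 2 + b4 ^ 2 + b5 ^ 2 + b6 ^ 2) := by
  have hsq : ∀ c : ℝ, |c| ≤ M → c ^ 2 ≤ M ^ 2 := fun c hc => sq_le_sq' (by linarith [abs_le.1 hc]) (abs_le.1 hc).2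
  have h := Finset.sum_mul_sq_le_sq_mul_sq Finset.univ ![c0, c1, c2, c3, c4, c5, c6]
    ![b0, b1, b2, b3, b4, b5, b6]
  simp only [Fin.sum_univ_seven, Matrix.cons_val_zero, Matrix.cons_val_one, Matrix.cons_val] at h
  refine h.trans ?_
  refine mul_le_mul_of_nonneg_right ?_ (by positivity)
  linarith [hsq _ h0, hsq _ h1, hsq _ h2, hsq _ h3, hsq _ h4, hsq _ h5, hsq _ h6]

/-- the half box -/
def LR_B : Set (ℝ × ℝ) := Set.Icc (-(1 / 8)) (1 / 8) ×ˢ Set.Icc (-(1 / 8)) (1 / 8)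

theorem LR_Bc : IsCompact LR_B := isCompact_Icc.prod isCompact_Icc
theorem LR_Qc (y0 : ℝ) : IsCompact (Qb y0) := isCompact_Icc.prod isCompact_Icc

theorem LR_BQ : LR_B ⊆ Qb 0 := by
  rintro ⟨x, y⟩ ⟨⟨h1, h2⟩, h3, h4⟩
  dsimp only at *
  refine ⟨⟨?_, ?_⟩, ?_, ?_⟩ <;> dsimp only <;> linarith

/-- product of two bumps -/
noncomputable def LR_chi (A : ContDiffBump (0 : ℝ)) (p : ℝ × ℝ) : ℝ := A p.1 * A p.2

theorem LR_chi_sm (A : ContDiffBump (0 : ℝ)) : ContDiff ℝ ∞ (LR_chi A) :=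
  (A.contDiff.comp contDiff_fst).mul (A.contDiff.comp contDiff_snd)

theorem LR_chi_zero (A : ContDiffBump (0 : ℝ)) (p : ℝ × ℝ) (h : A.rOut ≤ |p.1| ∨ A.rOut ≤ |p.2|) :
    LR_chi A p = 0 := by
  rcases h with h | h
  · rw [LR_chi, A.zero_of_le_dist (by rwa [Real.dist_eq, sub_zero]), zero_mul]
  · rw [LR_chi, A.zero_of_le_dist (x := p.2) (by rwa [Real.dist_eq, sub_zero]), mul_zero]

theorem LR_chi_one (A : ContDiffBump (0 : ℝ)) (p : ℝ × ℝ) (h1 : |p.1| ≤ A.rIn) (h2 : |p.2| ≤ A.rIn) :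
    LR_chi A p = 1 := by
  rw [LR_chi, A.one_of_mem_closedBall (by rwa [Metric.mem_closedBall, Real.dist_eq, sub_zero]),
    A.one_of_mem_closedBall (by rwa [Metric.mem_closedBall, Real.dist_eq, sub_zero]), mul_one]

theorem LR_chi_near (A : ContDiffBump (0 : ℝ)) (g : ℝ × ℝ → ℝ) (p : ℝ × ℝ) (h1 : |p.1| < A.rIn)
    (h2 : |p.2| < A.rIn) : (fun q => LR_chi A q * g q) =ᶠ[𝓝 p] g := by
  have h3 : ∀ᶠ q : ℝ × ℝ in 𝓝 p, |q.1| < A.rIn := (continuous_fst.abs.tendsto p).eventually_lt_const h1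
  have h4 : ∀ᶠ q : ℝ × ℝ in 𝓝 p, |q.2| < A.rIn := (continuous_snd.abs.tendsto p).eventually_lt_const h2
  filter_upwards [h3, h4] with q h5 h6
  rw [LR_chi_one A q h5.le h6.le, one_mul]

theorem LR_ev {f g : ℝ × ℝ → ℝ} {p : ℝ × ℝ} (h : f =ᶠ[𝓝 p] g) (e : ℝ × ℝ) :
    (fun q => fderiv ℝ f q e) =ᶠ[𝓝 p] fun q => fderiv ℝ g q e := by
  filter_upwards [h.fderiv (𝕜 := ℝ)] with q hq
  rw [hq]

theorem LR_ev_px {f g : ℝ × ℝ → ℝ} {p : ℝ × ℝ} (h : f =ᶠ[𝓝 p] g) : px f =ᶠ[𝓝 p] px g := LR_ev h _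
theorem LR_ev_py {f g : ℝ × ℝ → ℝ} {p : ℝ × ℝ} (h : f =ᶠ[𝓝 p] g) : py f =ᶠ[𝓝 p] py g := LR_ev h _
theorem LR_ev_lap {f g : ℝ × ℝ → ℝ} {p : ℝ × ℝ} (h : f =ᶠ[𝓝 p] g) : lap f =ᶠ[𝓝 p] lap g :=
  (LR_ev_px (LR_ev_px h)).add (LR_ev_py (LR_ev_py h))

/-- integrals of continuous functions dominated on a compact set -/
theorem LR_int {F G : ℝ × ℝ → ℝ} {K : Set (ℝ × ℝ)} (hK : IsCompact K) (hF : Continuous F)
    (hG : Continuous G) (h0 : ∀ p ∉ K, F p = 0) (hFG : ∀ p, F p ≤ G p) (_hG0 : ∀ p, 0 ≤ G p) :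
    ∫ p, F p ≤ ∫ p in K, G p := by
  have h1 : Integrable F := hF.integrable_of_hasCompactSupport (HasCompactSupport.intro hK h0)
  have h2 : IntegrableOn G K := hG.continuousOn.integrableOn_compact hK
  rw [← integral_indicator hK.measurableSet]
  refine integral_mono h1 (h2.integrable_indicator hK.measurableSet) fun p => ?_
  by_cases hp : p ∈ K
  · rw [Set.indicator_of_mem hp]
    exact hFG p
  · rw [Set.indicator_of_notMem hp, h0 p hp]

/-- the integrand of the right side -/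
noncomputable def LR_G (h : ℝ × ℝ → ℝ) (p : ℝ × ℝ) : ℝ :=
  h p ^ 2 + px h p ^ 2 + py h p ^ 2 + lap h p ^ 2 + px (lap h) p ^ 2 + py (lap h) p ^ 2

theorem LR_G_cont {h : ℝ × ℝ → ℝ} (hh : ContDiff ℝ ∞ h) : Continuous (LR_G h) := by
  have h1 := hh.continuous
  have h2 := (LR_px hh).continuous
  have h3 := (LR_py hh).continuous
  have h4 := (LR_lap hh).continuous
  have h5 := (LR_px (LR_lap hh)).continuous
  have h6 := (LR_py (LR_lap hh)).continuous
  exact (((((h1.pow 2).add (h2.pow 2)).add (h3.pow 2)).add (h4.pow 2)).add (h5.pow 2)).add (h6.pow 2)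

theorem LR_main (hL2 : L2_stmt) (hL3 : L3_stmt) (hL4 : L4_stmt) : ∃ C : ℝ, 0 < C ∧
    ∀ h : ℝ × ℝ → ℝ, ContDiff ℝ ∞ h → px h (0, 0) ^ 2 ≤ C * ∫ p in Qb 0, LR_G h p := by
  let A : ContDiffBump (0 : ℝ) := ⟨1 / 16, 1 / 8, by norm_num, by norm_num⟩
  let A1 : ContDiffBump (0 : ℝ) := ⟨3 / 16, 1 / 4, by norm_num, by norm_num⟩
  have hA : ContDiff ℝ ∞ (LR_chi A) := LR_chi_sm A
  have hA1 : ContDiff ℝ ∞ (LR_chi A1) := LR_chi_sm A1
  have zA : ∀ p ∉ LR_B, LR_chi A p = 0 := by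
    intro p hp
    apply LR_chi_zero
    by_contra hne
    push Not at hne
    apply hp
    have e : A.rOut = 1 / 8 := rfl
    rw [e] at hne
    exact ⟨⟨(abs_lt.1 hne.1).1.le, (abs_lt.1 hne.1).2.le⟩, (abs_lt.1 hne.2).1.le, (abs_lt.1 hne.2).2.le⟩
  have zA1 : ∀ p ∉ Qb 0, LR_chi A1 p = 0 := by
    intro p hp
    apply LR_chi_zero
    by_contra hne
    push Not at hne
    apply hp
    have e : A1.rOut = 1 / 4 := rfl
    rw [e] at hne
    refine ⟨⟨(abs_lt.1 hne.1).1.le, (abs_lt.1 hne.1).2.le⟩, ?_, ?_⟩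
    · have := (abs_lt.1 hne.2).1
      show 0 - 1 / 4 ≤ p.2
      linarith
    · have := (abs_lt.1 hne.2).2
      show p.2 ≤ 0 + 1 / 4
      linarith
  have cB := LR_Bc.isClosed
  have cQ := (LR_Qc 0).isClosed
  -- bounds for `χ`
  obtain ⟨a0, ha0, b0⟩ := LR_bound LR_Bc (LR_van cB (LR_van_lap cB zA) (0, 1)) (LR_py (LR_lap hA))
  obtain ⟨a1, ha1, b1⟩ := LR_bound LR_Bc (LR_van cB (LR_van cB zA (1, 0)) (0, 1)) (LR_py (LR_px hA))
  obtain ⟨a2, ha2, b2⟩ := LR_bound LR_Bc (LR_van cB (LR_van cB zA (1, 0)) (1, 0)) (LR_px (LR_px hA))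
  obtain ⟨a3, ha3, b3⟩ := LR_bound LR_Bc (LR_van cB (LR_van cB zA (0, 1)) (0, 1)) (LR_py (LR_py hA))
  obtain ⟨a4, ha4, b4⟩ := LR_bound LR_Bc (LR_van cB zA (1, 0)) (LR_px hA)
  obtain ⟨a5, ha5, b5⟩ := LR_bound LR_Bc (LR_van cB zA (0, 1)) (LR_py hA)
  obtain ⟨a6, ha6, b6⟩ := LR_bound LR_Bc zA hA
  set M := a0 + 2 * a1 + (a2 + 3 * a3) + 2 * a4 + 2 * a5 + a6 with hM
  -- bounds for `χ₁`
  obtain ⟨m1, hm1, n1⟩ := LR_bound (LR_Qc 0) (LR_van cQ (LR_van cQ zA1 (1, 0)) (1, 0)) (LR_px (LR_px hA1))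
  obtain ⟨m2, hm2, n2⟩ := LR_bound (LR_Qc 0) (LR_van cQ (LR_van cQ zA1 (0, 1)) (0, 1)) (LR_py (LR_py hA1))
  obtain ⟨m3, hm3, n3⟩ := LR_bound (LR_Qc 0) (LR_van cQ zA1 (1, 0)) (LR_px hA1)
  obtain ⟨m4, hm4, n4⟩ := LR_bound (LR_Qc 0) (LR_van cQ zA1 (0, 1)) (LR_py hA1)
  obtain ⟨m5, hm5, n5⟩ := LR_bound (LR_Qc 0) zA1 hA1
  set M1 := (m1 + m2) + 2 * m3 + 2 * m4 + m5 with hM1
  refine ⟨7 * M ^ 2 * (1 + 4 * M1 ^ 2) + 1, by positivity, fun h hh => ?_⟩
  have hv : ContDiff ℝ ∞ (fun q => LR_chi A q * h q) := hA.mul hh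
  have hw : ContDiff ℝ ∞ (fun q => LR_chi A1 q * h q) := hA1.mul hh
  have zv : ∀ p ∉ LR_B, LR_chi A p * h p = 0 := fun p hp => by rw [zA p hp, zero_mul]
  have zw : ∀ p ∉ Qb 0, LR_chi A1 p * h p = 0 := fun p hp => by rw [zA1 p hp, zero_mul]
  have cv : HasCompactSupport (fun q => LR_chi A q * h q) := HasCompactSupport.intro LR_Bc zv
  have cw : HasCompactSupport (fun q => LR_chi A1 q * h q) := HasCompactSupport.intro (LR_Qc 0) zw
  -- first step
  have s1 : px h (0, 0) ^ 2 ≤ ∫ p, py (lap (fun q => LR_chi A q * h q)) p ^ 2 := by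
    have e1 : px (fun q => LR_chi A q * h q) (0, 0) = px h (0, 0) := by
      refine (LR_ev_px (LR_chi_near A h (0, 0) ?_ ?_)).eq_of_nhds
      · rw [abs_zero]; exact A.rIn_pos
      · rw [abs_zero]; exact A.rIn_pos
    rw [← e1]
    refine (hL4 _ (-(1 / 8)) (-(1 / 8)) hv cv ?_ _).trans (hL3 _ hv cv)
    refine (closure_minimal (fun p hp => ?_) cB).trans ?_
    · by_contra hne
      exact hp (zv p hne)
    · rintro ⟨x, y⟩ ⟨⟨h1, h2⟩, h3, h4⟩
      dsimp only at *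
      refine ⟨⟨?_, ?_⟩, ?_, ?_⟩ <;> dsimp only <;> linarith
  -- second step
  have s2 : ∫ p, py (lap (fun q => LR_chi A q * h q)) p ^ 2 ≤
      ∫ p in LR_B, 7 * M ^ 2 * (LR_G h p + (py (px h) p ^ 2 + py (py h) p ^ 2)) := by
    refine LR_int LR_Bc ((LR_py (LR_lap hv)).continuous.pow 2)
      (continuous_const.mul ((LR_G_cont hh).add (((LR_py (LR_px hh)).continuous.pow 2).add
        ((LR_py (LR_py hh)).continuous.pow 2)))) ?_ ?_ ?_
    · intro p hp
      have e1 : py (lap (fun q => LR_chi A q * h q)) p = 0 := LR_van cB (LR_van_lap cB zv) _ p hp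
      rw [e1]
      norm_num
    · intro p
      rw [LR_pylap_mul hA hh]
      have c0 : |py (lap (LR_chi A)) p| ≤ M := (b0 p).trans (by rw [hM]; linarith)
      have c1 : |2 * py (px (LR_chi A)) p| ≤ M := by
        rw [abs_mul, abs_two]
        have := b1 p
        have e : |py (px (LR_chi A)) p| ≤ a1 := this
        rw [hM]; linarith
      have c2 : |lap (LR_chi A) p + 2 * py (py (LR_chi A)) p| ≤ M := by
        have e2 : |px (px (LR_chi A)) p| ≤ a2 := b2 p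
        have e3 : |py (py (LR_chi A)) p| ≤ a3 := b3 p
        have e4 : lap (LR_chi A) p + 2 * py (py (LR_chi A)) p =
            px (px (LR_chi A)) p + 3 * py (py (LR_chi A)) p := by
          show px (px (LR_chi A)) p + py (py (LR_chi A)) p + 2 * py (py (LR_chi A)) p = _
          ring
        rw [e4]
        refine (abs_add_le _ _).trans ?_
        rw [abs_mul, show |(3 : ℝ)| = 3 by norm_num, hM]
        linarith
      have c3 : |2 * px (LR_chi A) p| ≤ M := by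
        rw [abs_mul, abs_two]
        have e : |px (LR_chi A) p| ≤ a4 := b4 p
        rw [hM]; linarith
      have c4 : |2 * py (LR_chi A) p| ≤ M := by
        rw [abs_mul, abs_two]
        have e : |py (LR_chi A) p| ≤ a5 := b5 p
        rw [hM]; linarith
      have c5 : |py (LR_chi A) p| ≤ M := by
        have e : |py (LR_chi A) p| ≤ a5 := b5 p
        rw [hM]; linarith
      have c6 : |LR_chi A p| ≤ M := (b6 p).trans (by rw [hM]; linarith)
      refine (LR_cs7 M _ _ _ _ _ _ _ (h p) (px h p) (py h p) (py (px h) p) (py (py h) p) (lap h p)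
        (py (lap h) p) c0 c1 c2 c3 c4 c5 c6).trans ?_
      refine mul_le_mul_of_nonneg_left ?_ (by positivity)
      rw [LR_G]
      linarith [sq_nonneg (px (lap h) p)]
    · intro p
      rw [LR_G]
      positivity
  -- the second derivatives
  have s3 : ∫ p in LR_B, (py (px h) p ^ 2 + py (py h) p ^ 2) ≤
      ∫ p, lap (fun q => LR_chi A1 q * h q) p ^ 2 := by
    rw [← hL2 _ hw cw]
    have hcont : Continuous fun p => px (px (fun q => LR_chi A1 q * h q)) p ^ 2 +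
        2 * px (py (fun q => LR_chi A1 q * h q)) p ^ 2 + py (py (fun q => LR_chi A1 q * h q)) p ^ 2 :=
      (((LR_px (LR_px hw)).continuous.pow 2).add (continuous_const.mul
        ((LR_px (LR_py hw)).continuous.pow 2))).add ((LR_py (LR_py hw)).continuous.pow 2)
    have hint : Integrable fun p => px (px (fun q => LR_chi A1 q * h q)) p ^ 2 +
        2 * px (py (fun q => LR_chi A1 q * h q)) p ^ 2 + py (py (fun q => LR_chi A1 q * h q)) p ^ 2 := by
      refine hcont.integrable_of_hasCompactSupport (HasCompactSupport.intro (LR_Qc 0) fun p hp => ?_)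
      have e1 : px (px (fun q => LR_chi A1 q * h q)) p = 0 := LR_van cQ (LR_van cQ zw _) _ p hp
      have e2 : px (py (fun q => LR_chi A1 q * h q)) p = 0 := LR_van cQ (LR_van cQ zw _) _ p hp
      have e3 : py (py (fun q => LR_chi A1 q * h q)) p = 0 := LR_van cQ (LR_van cQ zw _) _ p hp
      rw [e1, e2, e3]
      norm_num
    have e4 : ∫ p in LR_B, (py (px h) p ^ 2 + py (py h) p ^ 2) ≤
        ∫ p in LR_B, (px (px (fun q => LR_chi A1 q * h q)) p ^ 2 +
          2 * px (py (fun q => LR_chi A1 q * h q)) p ^ 2 + py (py (fun q => LR_chi A1 q * h q)) p ^ 2) := by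
      refine setIntegral_mono_on ?_ hint.integrableOn LR_Bc.measurableSet ?_
      · exact (((LR_py (LR_px hh)).continuous.pow 2).add
          ((LR_py (LR_py hh)).continuous.pow 2)).continuousOn.integrableOn_compact LR_Bc
      · intro p hp
        have hnear : (fun q => LR_chi A1 q * h q) =ᶠ[𝓝 p] h := by
          refine LR_chi_near A1 h p ?_ ?_
          · have : |p.1| ≤ 1 / 8 := abs_le.2 hp.1
            show |p.1| < 3 / 16
            linarith
          · have : |p.2| ≤ 1 / 8 := abs_le.2 hp.2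
            show |p.2| < 3 / 16
            linarith
        have f1 : px (py (fun q => LR_chi A1 q * h q)) p = py (px h) p := by
          rw [(LR_ev_px (LR_ev_py hnear)).eq_of_nhds, LR_comm hh]
        have f2 : py (py (fun q => LR_chi A1 q * h q)) p = py (py h) p :=
          (LR_ev_py (LR_ev_py hnear)).eq_of_nhds
        rw [f1, f2]
        linarith [sq_nonneg (px (px (fun q => LR_chi A1 q * h q)) p), sq_nonneg (py (px h) p)]
    refine e4.trans ?_
    refine setIntegral_le_integral hint (Filter.Eventually.of_forall fun p => ?_)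
    show (0 : ℝ) ≤ _
    positivity
  have s4 : ∫ p, lap (fun q => LR_chi A1 q * h q) p ^ 2 ≤ ∫ p in Qb 0, 4 * M1 ^ 2 * LR_G h p := by
    refine LR_int (LR_Qc 0) ((LR_lap hw).continuous.pow 2) (continuous_const.mul (LR_G_cont hh)) ?_ ?_ ?_
    · intro p hp
      have e1 : lap (fun q => LR_chi A1 q * h q) p = 0 := LR_van_lap cQ zw p hp
      rw [e1]
      norm_num
    · intro p
      rw [LR_lap_mul hA1 hh]
      have c0 : |lap (LR_chi A1) p| ≤ M1 := by
        have e1 : |px (px (LR_chi A1)) p| ≤ m1 := n1 p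
        have e2 : |py (py (LR_chi A1)) p| ≤ m2 := n2 p
        refine (abs_add_le _ _).trans ?_
        rw [hM1]
        linarith
      have c1 : |2 * px (LR_chi A1) p| ≤ M1 := by
        rw [abs_mul, abs_two]
        have e : |px (LR_chi A1) p| ≤ m3 := n3 p
        rw [hM1]; linarith
      have c2 : |2 * py (LR_chi A1) p| ≤ M1 := by
        rw [abs_mul, abs_two]
        have e : |py (LR_chi A1) p| ≤ m4 := n4 p
        rw [hM1]; linarith
      have c3 : |LR_chi A1 p| ≤ M1 := (n5 p).trans (by rw [hM1]; linarith)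
      refine (LR_cs4 M1 _ _ _ _ (h p) (px h p) (py h p) (lap h p) c0 c1 c2 c3).trans ?_
      refine mul_le_mul_of_nonneg_left ?_ (by positivity)
      rw [LR_G]
      linarith [sq_nonneg (px (lap h) p), sq_nonneg (py (lap h) p)]
    · intro p
      rw [LR_G]
      positivity
  -- conclusion
  have iG : IntegrableOn (LR_G h) LR_B := (LR_G_cont hh).continuousOn.integrableOn_compact LR_Bc
  have i2 : IntegrableOn (fun p => py (px h) p ^ 2 + py (py h) p ^ 2) LR_B :=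
    (((LR_py (LR_px hh)).continuous.pow 2).add
      ((LR_py (LR_py hh)).continuous.pow 2)).continuousOn.integrableOn_compact LR_Bc
  have iQ : IntegrableOn (LR_G h) (Qb 0) := (LR_G_cont hh).continuousOn.integrableOn_compact (LR_Qc 0)
  have g0 : ∀ p, 0 ≤ LR_G h p := fun p => by rw [LR_G]; positivity
  rw [integral_const_mul, integral_add iG i2] at s2
  rw [integral_const_mul] at s4
  have s5 : ∫ p in LR_B, LR_G h p ≤ ∫ p in Qb 0, LR_G h p :=
    setIntegral_mono_set iQ (Filter.Eventually.of_forall g0) (Filter.Eventually.of_forall LR_BQ)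
  have s6 : 0 ≤ ∫ p in Qb 0, LR_G h p := integral_nonneg g0
  have s7 : 7 * M ^ 2 * ((∫ p in LR_B, LR_G h p) + ∫ p in LR_B, (py (px h) p ^ 2 + py (py h) p ^ 2)) ≤
      7 * M ^ 2 * ((∫ p in Qb 0, LR_G h p) + 4 * M1 ^ 2 * ∫ p in Qb 0, LR_G h p) :=
    mul_le_mul_of_nonneg_left (add_le_add s5 (s3.trans s4)) (by positivity)
  calc px h (0, 0) ^ 2 ≤ _ := s1
    _ ≤ _ := s2
    _ ≤ _ := s7
    _ ≤ _ := by
      have e : (7 * M ^ 2 * (1 + 4 * M1 ^ 2) + 1) * (∫ p in Qb 0, LR_G h p) =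
          7 * M ^ 2 * ((∫ p in Qb 0, LR_G h p) + 4 * M1 ^ 2 * ∫ p in Qb 0, LR_G h p) +
            ∫ p in Qb 0, LR_G h p := by ring
      rw [e]
      exact le_add_of_nonneg_right s6

theorem LR_shift (f : ℝ × ℝ → ℝ) (c e : ℝ × ℝ) :
    (fun p => fderiv ℝ (fun q => f (q + c)) p e) = fun p => fderiv ℝ f (p + c) e := by
  funext p
  rw [fderiv_comp_add_right]

theorem LR_shift_px (f : ℝ × ℝ → ℝ) (c : ℝ × ℝ) : px (fun q => f (q + c)) = fun p => px f (p + c) :=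
  LR_shift f c _
theorem LR_shift_py (f : ℝ × ℝ → ℝ) (c : ℝ × ℝ) : py (fun q => f (q + c)) = fun p => py f (p + c) :=
  LR_shift f c _
theorem LR_shift_lap (f : ℝ × ℝ → ℝ) (c : ℝ × ℝ) :
    lap (fun q => f (q + c)) = fun p => lap f (p + c) := by
  funext p
  show px (px (fun q => f (q + c))) p + py (py (fun q => f (q + c))) p = _
  rw [LR_shift_px, LR_shift_px, LR_shift_py, LR_shift_py]
  rfl

theorem LR_shift_int (F : ℝ × ℝ → ℝ) (y0 : ℝ) :
    ∫ p in Qb 0, F (p + (0, y0)) = ∫ p in Qb y0, F p := by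
  rw [← integral_indicator (LR_Qc 0).measurableSet, ← integral_indicator (LR_Qc y0).measurableSet,
    ← integral_add_right_eq_self (fun p => (Qb y0).indicator F p) ((0, y0) : ℝ × ℝ)]
  congr 1
  funext p
  have e : p ∈ Qb 0 ↔ p + (0, y0) ∈ Qb y0 := by
    obtain ⟨x, y⟩ := p
    simp only [Qb, Set.mem_prod, Set.mem_Icc, Prod.mk_add_mk, add_zero, zero_sub, zero_add]
    constructor
    · rintro ⟨h1, h2, h3⟩
      exact ⟨h1, by linarith, by linarith⟩
    · rintro ⟨h1, h2, h3⟩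
      exact ⟨h1, by linarith, by linarith⟩
  by_cases hp : p ∈ Qb 0
  · rw [Set.indicator_of_mem hp, Set.indicator_of_mem (e.1 hp)]
  · rw [Set.indicator_of_notMem hp, Set.indicator_of_notMem fun h => hp (e.2 h)]

theorem LR (hL2 : L2_stmt) (hL3 : L3_stmt) (hL4 : L4_stmt) : LR_stmt := by
  obtain ⟨C, hC, hmain⟩ := LR_main hL2 hL3 hL4
  refine ⟨C, hC, fun h y0 hy0 hh => ?_⟩
  let A : ContDiffBump (0 : ℝ) := ⟨3 / 8, 1 / 2, by norm_num, by norm_num⟩
  set hc : ℝ × ℝ → ℝ := fun q => h (q + (0, y0)) with hhc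
  set H : ℝ × ℝ → ℝ := fun q => LR_chi A q * hc q with hH
  have hHs : ContDiff ℝ ∞ H := by
    rw [contDiff_iff_contDiffAt]
    intro p
    by_cases hp : p.2 < -(1 / 2)
    · have h1 : H =ᶠ[𝓝 p] fun _ => 0 := by
        have h4 : ∀ᶠ q : ℝ × ℝ in 𝓝 p, q.2 < -(1 / 2) :=
          (continuous_snd.tendsto p).eventually_lt_const hp
        filter_upwards [h4] with q hq
        have h5 : LR_chi A q = 0 := LR_chi_zero A q (Or.inr (by
          show 1 / 2 ≤ |q.2|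
          rw [le_abs]
          right
          linarith))
        show LR_chi A q * hc q = 0
        rw [h5, zero_mul]
      exact (contDiffAt_const (c := (0 : ℝ))).congr_of_eventuallyEq h1
    · push Not at hp
      have h1 : ContDiffAt ℝ ∞ hc p := by
        have h2 : ContDiffAt ℝ ∞ h (p + (0, y0)) := by
          refine hh.contDiffAt ((isOpen_lt continuous_const continuous_snd).mem_nhds ?_)
          show 0 < p.2 + y0
          linarith
        exact h2.comp p (contDiffAt_id.add contDiffAt_const)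
      exact (LR_chi_sm A).contDiffAt.mul h1
  have hnear : ∀ p ∈ Qb 0, H =ᶠ[𝓝 p] hc := by
    intro p hp
    refine LR_chi_near A hc p ?_ ?_
    · have : |p.1| ≤ 1 / 4 := abs_le.2 hp.1
      show |p.1| < 3 / 8
      linarith
    · have h1 : 0 - 1 / 4 ≤ p.2 := hp.2.1
      have h2 : p.2 ≤ 0 + 1 / 4 := hp.2.2
      have : |p.2| ≤ 1 / 4 := abs_le.2 ⟨by linarith, by linarith⟩
      show |p.2| < 3 / 8
      linarith
  have hG : ∀ p ∈ Qb 0, LR_G H p = LR_G h (p + (0, y0)) := by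
    intro p hp
    have e0 := hnear p hp
    rw [LR_G, LR_G, e0.eq_of_nhds, (LR_ev_px e0).eq_of_nhds, (LR_ev_py e0).eq_of_nhds,
      (LR_ev_lap e0).eq_of_nhds, (LR_ev_px (LR_ev_lap e0)).eq_of_nhds,
      (LR_ev_py (LR_ev_lap e0)).eq_of_nhds, hhc, LR_shift_px, LR_shift_py, LR_shift_lap, LR_shift_px,
      LR_shift_py]
  have h0 : ((0, 0) : ℝ × ℝ) ∈ Qb 0 := by
    refine ⟨⟨?_, ?_⟩, ?_, ?_⟩ <;> norm_num
  have e1 : px h (0, y0) = px H (0, 0) := by
    rw [(LR_ev_px (hnear _ h0)).eq_of_nhds, hhc, LR_shift_px]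
    simp
  rw [e1]
  refine (hmain H hHs).trans ?_
  refine mul_le_mul_of_nonneg_left (le_of_eq ?_) hC.le
  rw [setIntegral_congr_fun (LR_Qc 0).measurableSet hG]
  exact LR_shift_int (LR_G h) y0

end SF
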